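import Pool.Agent.Y75.BF.Defs

set_option autoImplicit false

/-!
Verbal subgroups, and groups detected by the groups `P / W(N)`.
-/

namespace Pool.Agent.H92.Rc

open Pool.Agent.Y75.BF (InfOrd NoPow)
open Pool.Agent.Y75.BF.Gr (FP ofT)

universe u v w

/-- The verbal subgroup `W(N)` of a subgroup `N` of `G`, as a subgroup of `G`: it is generated by the
values in `N` of the words of `W`. -/
def vs (W : Set (FreeGroup ℕ)) {G : Type v} [Group G] (N : Subgroup G) : Subgroup G :=
  Subgroup.closure {x | ∃ w ∈ W, ∃ f : ℕ → N, ((FreeGroup.lift f w : N) : G) = x}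

instance vs_norm (W : Set (FreeGroup ℕ)) {G : Type v} [Group G] (N : Subgroup G) [hN : N.Normal] :
    (vs W N).Normal := by
  refine ⟨fun x hx g => ?_⟩
  induction hx using Subgroup.closure_induction with
  | mem x hx =>
    obtain ⟨w, hw, f, rfl⟩ := hx
    let ψ : N →* N := (MulAut.conjNormal g : MulAut N).toMonoidHom
    refine Subgroup.subset_closure ⟨w, hw, ψ ∘ f, ?_⟩
    have h1 : FreeGroup.lift (ψ ∘ f) = ψ.comp (FreeGroup.lift f) := by
      ext a
      simp
    rw [h1]
    rfl
  | one => rw [mul_one, mul_inv_cancel]; exact one_mem _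
  | mul x y _ _ hx hy =>
    have h1 : g * (x * y) * g⁻¹ = (g * x * g⁻¹) * (g * y * g⁻¹) := by group
    rw [h1]
    exact mul_mem hx hy
  | inv x _ hx =>
    have h1 : g * x⁻¹ * g⁻¹ = (g * x * g⁻¹)⁻¹ := by group
    rw [h1]
    exact inv_mem hx

/-- The terms of the lower central series of a normal subgroup are normal. -/
instance lcs_norm {G : Type v} [Group G] (N : Subgroup G) [hN : N.Normal] (c : ℕ) :
    (N.lowerCentralSeries c).Normal := by
  induction c with
  | zero => exact hN
  | succ c ih => rw [Subgroup.lowerCentralSeries_succ]; infer_instance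

/-- The group `P / W(N)`. -/
def VG (W : Set (FreeGroup ℕ)) (r : Pool.Agent.Y75.BF.Rel.{v}) : Type v :=
  letI := r.grp
  FP r.X r.I r.T ⧸ vs W r.N

instance (W : Set (FreeGroup ℕ)) (r : Pool.Agent.Y75.BF.Rel.{v}) : Group (VG W r) :=
  letI := r.grp
  letI := r.normal
  QuotientGroup.Quotient.group (vs W r.N)

/-- The element `h` of `H` is *detected*: every finitely generated subgroup `H0` containing `h` has a
homomorphism `s` to a group `P / W(N)`, with `N` tame, such that `s h` has infinite order. -/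
def DetW.{a, b} (W : Set (FreeGroup ℕ)) (H : Type b) [Group H] (h : H) : Prop :=
  ∀ (H0 : Subgroup H) (_ : H0.FG) (hh : h ∈ H0),
    ∃ (r : Pool.Agent.Y75.BF.Rel.{a}) (s : H0 →* VG W r), r.Tame ∧ InfOrd (s ⟨h, hh⟩)

end Pool.Agent.H92.Rc
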