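import Pool.Agent.H92.Rc.Thm

set_option autoImplicit false

/-!
Groups detected by the groups `P / V(N)`.
-/

namespace Pool.Agent.H92.Rc

open Pool.Agent.Y75.BF (InfOrd NoPow)
open Pool.Agent.Y75.BF.Gr

universe u v w

theorem noPow_rel {W : Set (FreeGroup ℕ)} (hW : ∀ w ∈ W, w ∈ commutator (FreeGroup ℕ)) {c : ℕ}
    (hc : (⊤ : Subgroup (FreeGroup ℕ)).lowerCentralSeries c ≤ verb W (FreeGroup ℕ))
    (r : Pool.Agent.Y75.BF.Rel.{v}) (hr : r.Tame) (g : VG W r) (hg : InfOrd g) : NoPow g := by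
  obtain ⟨X, I, T, _, N, _⟩ := r
  have hN : ∀ i (t : T i), ofT i t ∈ N → t = 1 := fun i t ht =>
    (hr i t).1 ((QuotientGroup.eq_one_iff _).2 ht)
  have hT : ∀ i (t : T i), (∃ n : ℕ, 0 < n ∧ t ^ n = 1) ∨
      ∀ m : ℕ, 2 ≤ m → ¬ IsConj (QuotientGroup.mk (ofT i t) : FP X I T ⧸ N)
        (QuotientGroup.mk (ofT i t) ^ m) := by
    intro i t
    by_cases hf : ∃ n : ℕ, 0 < n ∧ t ^ n = 1
    · exact Or.inl hf
    · exact Or.inr ((hr i t).2 fun n hn h1 => hf ⟨n, hn, h1⟩)
  exact noPow_verb N hW hc hN hT g hg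

theorem vs_map_mem {W : Set (FreeGroup ℕ)} {G : Type v} {G' : Type w} [Group G] [Group G']
    (φ : G →* G') (N : Subgroup G) (N' : Subgroup G') (h : ∀ x ∈ N, φ x ∈ N') {x : G}
    (hx : x ∈ vs W N) : φ x ∈ vs W N' := by
  induction hx using Subgroup.closure_induction with
  | mem x hx =>
    obtain ⟨w, hw, f, rfl⟩ := hx
    let ψ : N →* N' := (φ.comp N.subtype).codRestrict N' (fun x => h x x.2)
    refine Subgroup.subset_closure ⟨w, hw, ψ ∘ f, ?_⟩
    have h1 : FreeGroup.lift (ψ ∘ f) = ψ.comp (FreeGroup.lift f) := by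
      ext a
      simp
    rw [h1]
    rfl
  | one => rw [map_one]; exact one_mem _
  | mul x y _ _ hx hy => rw [map_mul]; exact mul_mem hx hy
  | inv x _ hx => rw [map_inv]; exact inv_mem hx

/-- `F / W(N)` embeds in a group `P / W(N)` -/
theorem exists_inj_vs (W : Set (FreeGroup ℕ)) {X : Type u} (R : Subgroup (FreeGroup X)) [R.Normal] :
    ∃ (r : Pool.Agent.Y75.BF.Rel.{u}) (φ : FreeGroup X ⧸ vs W R →* VG W r),
      r.Tame ∧ Function.Injective φ := by
  have hn : (R.map (eF X).toMonoidHom).Normal :=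
    Subgroup.Normal.map inferInstance _ (eF X).surjective
  let φ : FreeGroup X ⧸ vs W R →* FP X PEmpty.{u + 1} TT ⧸ vs W (R.map (eF X).toMonoidHom) :=
    QuotientGroup.map (vs W R) _ (eF X).toMonoidHom (by
      intro x hx
      exact vs_map_mem (eF X).toMonoidHom R _ (fun x hx => Subgroup.mem_map_of_mem _ hx) hx)
  suffices hφ : Function.Injective φ from
    ⟨⟨X, PEmpty, TT, inferInstance, R.map (eF X).toMonoidHom, hn⟩, φ, fun i => i.elim, hφ⟩
  rw [injective_iff_map_eq_one]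
  intro a ha
  obtain ⟨w, rfl⟩ := QuotientGroup.mk_surjective a
  have h1 : (QuotientGroup.mk (eF X w) : FP X PEmpty.{u + 1} TT ⧸
    vs W (R.map (eF X).toMonoidHom)) = 1 := ha
  rw [QuotientGroup.eq_one_iff] at h1
  rw [QuotientGroup.eq_one_iff]
  have h2 : (eF X).symm.toMonoidHom (eF X w) ∈ vs W R := by
    refine vs_map_mem _ _ _ ?_ h1
    rintro _ ⟨x, hx, rfl⟩
    have h3 : (eF X).symm.toMonoidHom ((eF X).toMonoidHom x) = x := (eF X).symm_apply_apply x
    rw [h3]
    exact hx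
  have h3 : (eF X).symm.toMonoidHom (eF X w) = w := (eF X).symm_apply_apply w
  rwa [h3] at h2

theorem bass_det (R : Type u) [CommRing R] [IsDomain R] {W : Set (FreeGroup ℕ)}
    (hW : ∀ w ∈ W, w ∈ commutator (FreeGroup ℕ)) {c : ℕ}
    (hc : (⊤ : Subgroup (FreeGroup ℕ)).lowerCentralSeries c ≤ verb W (FreeGroup ℕ))
    (H : Type w) [Group H] (hH : ∀ h : H, InfOrd h → DetW.{v} W H h) :
    Pool.Agent.H26R2.Bass.BassFor R H := by
  apply bass_detect.{u, v, w} R H
  intro h hh H0 hH0 hm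
  obtain ⟨r, s, hr, hs⟩ := hH h hh H0 hH0 hm
  exact ⟨VG W r, inferInstance, s, noPow_rel hW hc r hr, hs⟩

theorem det_free (W : Set (FreeGroup ℕ)) (X : Type v) (N : Subgroup (FreeGroup X)) [N.Normal]
    (h : FreeGroup X ⧸ vs W N) (hh : InfOrd h) : DetW.{v} W (FreeGroup X ⧸ vs W N) h := by
  obtain ⟨r, φ, hr, hφ⟩ := exists_inj_vs W N
  intro H0 _ hm
  refine ⟨r, φ.comp H0.subtype, hr, ?_⟩
  intro n hn h1
  apply hh n hn
  apply hφ
  rw [map_one, map_pow]
  exact h1

theorem verb_of_vs {W : Set (FreeGroup ℕ)} {G : Type v} [Group G] {x : G}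
    (hx : x ∈ vs W (⊤ : Subgroup G)) : x ∈ verb W G := by
  rw [vs_eq] at hx
  obtain ⟨y, hy, rfl⟩ := hx
  exact verb_map (⊤ : Subgroup G).subtype hy

/-- the words of the variety of nilpotent groups -/
theorem vs_lcs {G : Type v} [Group G] (N : Subgroup G) (c : ℕ) :
    vs ((⊤ : Subgroup (FreeGroup ℕ)).lowerCentralSeries c : Set (FreeGroup ℕ)) N =
      N.lowerCentralSeries c := by
  apply le_antisymm
  · unfold vs
    rw [Subgroup.closure_le]
    rintro _ ⟨w, hw, f, rfl⟩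
    rw [← Subgroup.top_subtype_lowerCentralSeries N c]
    exact Subgroup.mem_map_of_mem _ (lcs_map (FreeGroup.lift f) c hw)
  · rw [← Subgroup.top_subtype_lowerCentralSeries N c, vs_eq]
    refine Subgroup.map_mono (lcs_le_verb ?_ N)
    intro x hx
    exact Subgroup.subset_closure ⟨x, hx, FreeGroup.of, by
      have h1 : FreeGroup.lift (FreeGroup.of : ℕ → FreeGroup ℕ) = MonoidHom.id _ := by
        ext a
        simp
      rw [h1]
      rfl⟩

theorem bass_lcs (R : Type u) [CommRing R] [IsDomain R] (X : Type v) (N : Subgroup (FreeGroup X))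
    [N.Normal] (c : ℕ) (hc : 1 ≤ c) :
    Pool.Agent.H26R2.Bass.BassFor R (FreeGroup X ⧸ N.lowerCentralSeries c) := by
  have key : ∀ (K : Subgroup (FreeGroup X)) [K.Normal],
      vs ((⊤ : Subgroup (FreeGroup ℕ)).lowerCentralSeries c : Set (FreeGroup ℕ)) N = K →
      Pool.Agent.H26R2.Bass.BassFor R (FreeGroup X ⧸ K) := by
    rintro K _ rfl
    apply bass_det.{u, v, v} R (W := ((⊤ : Subgroup (FreeGroup ℕ)).lowerCentralSeries c :
      Set (FreeGroup ℕ))) (c := c)
    · intro w hw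
      have h1 := (⊤ : Subgroup (FreeGroup ℕ)).lowerCentralSeries_antitone hc hw
      rwa [Subgroup.top_lowerCentralSeries_one] at h1
    · intro x hx
      apply verb_of_vs
      rw [vs_lcs]
      exact hx
    · exact fun h hh => det_free _ X N h hh
  exact key _ (vs_lcs N c)

end Pool.Agent.H92.Rc
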