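import Pool.Agent.H92.Rc.Verb

set_option autoImplicit false

/-!
Permutations of the letters of a free group have no eigenvalues on the layers.
-/

namespace Pool.Agent.H92.Rc

open Subgroup
open scoped commutatorElement

universe u v w

variable {W : Set (FreeGroup ℕ)}

section layer

variable {G : Type v} [Group G]

variable (W) in
/-- equality in the layer up to torsion -/
def Eqv (i : ℕ) (x y : G) : Prop :=
  ∃ n : ℕ, 0 < n ∧ (QuotientGroup.mk x : G ⧸ Dl W G (i + 1)) ^ n = QuotientGroup.mk y ^ n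

theorem Eqv.refl (i : ℕ) (x : G) : Eqv W i x x := ⟨1, one_pos, rfl⟩

theorem Eqv.symm {i : ℕ} {x y : G} (h : Eqv W i x y) : Eqv W i y x := by
  obtain ⟨n, hn, h⟩ := h
  exact ⟨n, hn, h.symm⟩

theorem Eqv.trans {i : ℕ} {x y z : G} (h : Eqv W i x y) (h' : Eqv W i y z) : Eqv W i x z := by
  obtain ⟨n, hn, h⟩ := h
  obtain ⟨m, hm, h'⟩ := h'
  refine ⟨n * m, Nat.mul_pos hn hm, ?_⟩
  rw [pow_mul, h, ← pow_mul, mul_comm, pow_mul, h', ← pow_mul]

theorem Eqv.pow {i : ℕ} {x y : G} (h : Eqv W i x y) (k : ℕ) : Eqv W i (x ^ k) (y ^ k) := by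
  obtain ⟨n, hn, h⟩ := h
  refine ⟨n, hn, ?_⟩
  rw [QuotientGroup.mk_pow, QuotientGroup.mk_pow, ← pow_mul, ← pow_mul, mul_comm, pow_mul, h,
    pow_mul]

theorem Eqv.of_pow {i : ℕ} {x y : G} {k : ℕ} (hk : 0 < k) (h : Eqv W i (x ^ k) (y ^ k)) :
    Eqv W i x y := by
  obtain ⟨n, hn, h⟩ := h
  refine ⟨k * n, Nat.mul_pos hk hn, ?_⟩
  rw [QuotientGroup.mk_pow, QuotientGroup.mk_pow] at h
  rw [pow_mul, pow_mul, h]

theorem Eqv.map {H : Type w} [Group H] (φ : G →* H) {i : ℕ} {x y : G} (h : Eqv W i x y) :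
    Eqv W i (φ x) (φ y) := by
  obtain ⟨n, hn, h⟩ := h
  refine ⟨n, hn, ?_⟩
  rw [← QuotientGroup.mk_pow, ← QuotientGroup.mk_pow, QuotientGroup.eq] at h ⊢
  have h1 := Dl_map φ (i + 1) h
  rw [map_mul, map_inv, map_pow, map_pow] at h1
  exact h1

end layer

section free

variable {Ω : Type v}

open Classical in
/-- killing the letters outside of `A` -/
noncomputable def kill (A : Set Ω) : FreeGroup Ω →* FreeGroup Ω :=
  FreeGroup.lift fun x => if x ∈ A then FreeGroup.of x else 1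

theorem kill_of_mem {A : Set Ω} {x : Ω} (h : x ∈ A) : kill A (FreeGroup.of x) = FreeGroup.of x := by
  unfold kill
  rw [FreeGroup.lift_apply_of, if_pos h]

theorem kill_of_not {A : Set Ω} {x : Ω} (h : x ∉ A) : kill A (FreeGroup.of x) = 1 := by
  unfold kill
  rw [FreeGroup.lift_apply_of, if_neg h]

theorem kill_kill (A B : Set Ω) (v : FreeGroup Ω) : kill A (kill B v) = kill (A ∩ B) v := by
  have h : (kill A).comp (kill B) = kill (A ∩ B) := by
    ext x
    rw [MonoidHom.comp_apply]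
    by_cases hB : x ∈ B
    · rw [kill_of_mem hB]
      by_cases hA : x ∈ A
      · rw [kill_of_mem hA, kill_of_mem (A := A ∩ B) ⟨hA, hB⟩]
      · rw [kill_of_not hA, kill_of_not (fun h => hA h.1)]
    · rw [kill_of_not hB, map_one, kill_of_not (fun h => hB h.2)]
  exact DFunLike.congr_fun h v

theorem kill_map (σ : Equiv.Perm Ω) (A : Set Ω) (v : FreeGroup Ω) :
    FreeGroup.map σ (kill A v) = kill (σ '' A) (FreeGroup.map σ v) := by
  have h : (FreeGroup.map σ).comp (kill A) = (kill (σ '' A)).comp (FreeGroup.map σ) := by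
    ext x
    rw [MonoidHom.comp_apply, MonoidHom.comp_apply, FreeGroup.map.of]
    by_cases hA : x ∈ A
    · rw [kill_of_mem hA, kill_of_mem (A := σ '' A) ⟨x, hA, rfl⟩, FreeGroup.map.of]
    · rw [kill_of_not hA, map_one, kill_of_not]
      rintro ⟨y, hy, hyx⟩
      exact hA (σ.injective hyx ▸ hy)
  exact DFunLike.congr_fun h v

theorem exists_kill (v : FreeGroup Ω) : ∃ A : Finset Ω, kill (A : Set Ω) v = v := by
  classical
  have hmono : ∀ (A B : Finset Ω) (v : FreeGroup Ω), A ⊆ B → kill (A : Set Ω) v = v →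
      kill (B : Set Ω) v = v := by
    intro A B v hAB h
    conv_lhs => rw [← h]
    rw [kill_kill]
    have h1 : ((B : Set Ω) ∩ A) = A := by
      rw [Set.inter_eq_right]
      exact_mod_cast hAB
    rw [h1, h]
  induction v using FreeGroup.induction_on with
  | C1 => exact ⟨∅, map_one _⟩
  | of x => exact ⟨{x}, kill_of_mem (by simp)⟩
  | inv_of x h => exact ⟨{x}, by rw [map_inv, kill_of_mem (by simp)]⟩
  | mul x y hx hy =>
    obtain ⟨A, hA⟩ := hx
    obtain ⟨B, hB⟩ := hy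
    refine ⟨A ∪ B, ?_⟩
    rw [map_mul, hmono A _ x Finset.subset_union_left hA, hmono B _ y Finset.subset_union_right hB]

/-- a permutation of a finite set has a power that fixes it pointwise -/
theorem exists_pow_fix (σ : Equiv.Perm Ω) (A : Finset Ω) (h : ∀ x ∈ A, σ x ∈ A) :
    ∃ s : ℕ, 0 < s ∧ ∀ x ∈ A, (σ ^ s) x = x := by
  classical
  have h1 : ∀ (n : ℕ), ∀ x ∈ A, (σ ^ n) x ∈ A := by
    intro n
    induction n with
    | zero => intro x hx; exact hx
    | succ n ih =>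
      intro x hx
      rw [pow_succ', Equiv.Perm.mul_apply]
      exact h _ (ih x hx)
  -- two powers agree on `A`
  let f : ℕ → (A → A) := fun n x => ⟨(σ ^ n) x, h1 n x x.2⟩
  obtain ⟨a, b, hab, hf⟩ := Finite.exists_ne_map_eq_of_infinite f
  wlog hlt : a < b generalizing a b
  · exact this b a hab.symm hf.symm (by omega)
  refine ⟨b - a, by omega, fun x hx => ?_⟩
  have h2 : (σ ^ a) x = (σ ^ b) x := congrArg Subtype.val (congrFun hf ⟨x, hx⟩)
  have h3 : (σ ^ b) x = (σ ^ a) ((σ ^ (b - a)) x) := by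
    rw [← Equiv.Perm.mul_apply, ← pow_add]
    congr 2
    omega
  rw [h3] at h2
  exact ((σ ^ a).injective h2).symm

theorem map_pow_eq (σ : Equiv.Perm Ω) (s : ℕ) (v : FreeGroup Ω) :
    FreeGroup.map (σ ^ (s + 1) : Equiv.Perm Ω) v =
      FreeGroup.map σ (FreeGroup.map (σ ^ s : Equiv.Perm Ω) v) := by
  have h : FreeGroup.map (σ ^ (s + 1) : Equiv.Perm Ω) =
      (FreeGroup.map σ).comp (FreeGroup.map (σ ^ s : Equiv.Perm Ω)) := by
    ext x
    rw [MonoidHom.comp_apply, FreeGroup.map.of, FreeGroup.map.of, FreeGroup.map.of, pow_succ']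
    rfl
  exact DFunLike.congr_fun h v

/-- No eigenvalues. -/
theorem no_layer (i : ℕ) (σ : Equiv.Perm Ω) (v : FreeGroup Ω) {m : ℕ} (hm : 2 ≤ m)
    (h : Eqv W i (FreeGroup.map σ v) (v ^ m)) : Eqv W i v 1 := by
  classical
  -- a minimal set of letters
  have hex : ∃ n : ℕ, ∃ A : Finset Ω, A.card = n ∧ Eqv W i (kill (A : Set Ω) v) v := by
    obtain ⟨A, hA⟩ := exists_kill v
    exact ⟨_, A, rfl, by rw [hA]; exact Eqv.refl _ _⟩
  obtain ⟨A, hAc, hA⟩ := Nat.find_spec hex
  have hmin : ∀ B : Finset Ω, Eqv W i (kill (B : Set Ω) v) v → A.card ≤ B.card := by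
    intro B hB
    rw [hAc]
    exact Nat.find_min' hex ⟨B, rfl, hB⟩
  -- the image of `A`
  let B : Finset Ω := A.map σ.toEmbedding
  have hBs : (B : Set Ω) = σ '' A := by
    simp [B]
  have h1 : Eqv W i (kill (B : Set Ω) v) v := by
    apply Eqv.of_pow (k := m) (by omega)
    have h2 := (hA.map (FreeGroup.map σ)).trans h
    rw [kill_map, ← hBs] at h2
    have h3 := (h.map (kill (B : Set Ω))).symm.trans h2
    rwa [map_pow] at h3
  have h2 : Eqv W i (kill ((A ∩ B : Finset Ω) : Set Ω) v) v := by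
    rw [Finset.coe_inter, ← kill_kill]
    exact (h1.map (kill (A : Set Ω))).trans hA
  have h3 := hmin _ h2
  have h4 : A ∩ B = A := Finset.eq_of_subset_of_card_le Finset.inter_subset_left h3
  have h5 : A = B := by
    have h6 : A ⊆ B := Finset.inter_eq_left.1 h4
    exact Finset.eq_of_subset_of_card_le h6 (by simp [B])
  have hinv : ∀ x ∈ A, σ x ∈ A := by
    intro x hx
    rw [h5]
    exact Finset.mem_map.2 ⟨x, hx, rfl⟩
  obtain ⟨s, hs, hfix⟩ := exists_pow_fix σ A hinv
  have hpow : ∀ s : ℕ, Eqv W i (FreeGroup.map (σ ^ s : Equiv.Perm Ω) v) (v ^ m ^ s) := by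
    intro s
    induction s with
    | zero =>
      have : FreeGroup.map ((σ ^ 0 : Equiv.Perm Ω) : Ω → Ω) v = v := by
        rw [pow_zero]
        exact FreeGroup.map.id v
      rw [this, pow_zero, pow_one]
      exact Eqv.refl _ _
    | succ s ih =>
      rw [map_pow_eq]
      have h6 := ih.map (FreeGroup.map σ)
      rw [map_pow] at h6
      refine h6.trans ?_
      have h7 := h.pow (m ^ s)
      rw [← pow_mul, ← pow_succ'] at h7
      exact h7
  have h6 : FreeGroup.map (σ ^ s : Equiv.Perm Ω) (kill (A : Set Ω) v) = kill (A : Set Ω) v := by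
    have h7 : (FreeGroup.map (σ ^ s : Equiv.Perm Ω)).comp (kill (A : Set Ω)) =
        kill (A : Set Ω) := by
      ext x
      rw [MonoidHom.comp_apply]
      by_cases hx : x ∈ (A : Set Ω)
      · rw [kill_of_mem hx, FreeGroup.map.of, hfix x (by exact_mod_cast hx)]
      · rw [kill_of_not hx, map_one]
    exact DFunLike.congr_fun h7 v
  have h7 : Eqv W i v (v ^ m ^ s) := by
    refine hA.symm.trans ?_
    rw [← h6]
    exact (hA.map (FreeGroup.map (σ ^ s : Equiv.Perm Ω))).trans (hpow s)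
  obtain ⟨n, hn, h8⟩ := h7
  have hms : 2 ≤ m ^ s := hm.trans (Nat.le_self_pow (by omega) m)
  refine ⟨n * (m ^ s - 1), Nat.mul_pos hn (by omega), ?_⟩
  rw [QuotientGroup.mk_pow, ← pow_mul] at h8
  have h9 : m ^ s * n = n * (m ^ s - 1) + n := by
    obtain ⟨a, ha⟩ : ∃ a, m ^ s = a + 1 := ⟨m ^ s - 1, by omega⟩
    rw [ha, Nat.add_sub_cancel]; ring
  rw [h9, pow_add] at h8
  rw [QuotientGroup.mk_one, one_pow]
  exact (mul_eq_right.1 h8.symm)

end free

end Pool.Agent.H92.Rc
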