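import Pool.Agent.H92.Rc.Kill
import Pool.Agent.Y75.BF.Emb

set_option autoImplicit false

/-!
Groups `P / V(N)` for nilpotent varieties: elements conjugate to proper powers.
-/

namespace Pool.Agent.H92.Rc

open Subgroup
open scoped commutatorElement

universe u v w

section nil

variable {W : Set (FreeGroup ℕ)}

/-- from the free group of countable rank to all groups -/
theorem lcs_le_verb {c : ℕ}
    (hc : (⊤ : Subgroup (FreeGroup ℕ)).lowerCentralSeries c ≤ verb W (FreeGroup ℕ))
    (G : Type v) [Group G] : (⊤ : Subgroup G).lowerCentralSeries c ≤ verb W G := by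
  classical
  have key : ∀ z ∈ (⊤ : Subgroup (FreeGroup G)).lowerCentralSeries c, z ∈ verb W (FreeGroup G) := by
    intro z hz
    obtain ⟨A, hA⟩ := exists_kill z
    let e := A.equivFin
    let α : FreeGroup G →* FreeGroup ℕ :=
      FreeGroup.lift fun x => if h : x ∈ A then FreeGroup.of ((e ⟨x, h⟩ : Fin A.card) : ℕ) else 1
    let β : FreeGroup ℕ →* FreeGroup G :=
      FreeGroup.lift fun n => if h : n < A.card then FreeGroup.of ((e.symm ⟨n, h⟩ : A) : G) else 1
    have h1 : β.comp α = kill (A : Set G) := by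
      ext x
      rw [MonoidHom.comp_apply, FreeGroup.lift_apply_of]
      by_cases hx : x ∈ A
      · rw [dif_pos hx, FreeGroup.lift_apply_of, dif_pos (e ⟨x, hx⟩).2,
          kill_of_mem (A := (A : Set G)) (by exact_mod_cast hx)]
        have h2 : e.symm ⟨((e ⟨x, hx⟩ : Fin A.card) : ℕ), (e ⟨x, hx⟩).2⟩ = ⟨x, hx⟩ :=
          e.symm_apply_apply _
        rw [h2]
      · rw [dif_neg hx, map_one, kill_of_not (A := (A : Set G)) (by exact_mod_cast hx)]
    have h2 : β (α z) = z := by
      rw [← MonoidHom.comp_apply, h1, hA]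
    rw [← h2]
    exact verb_map β (hc (lcs_map α c hz))
  intro x hx
  have h1 : (⊤ : Subgroup G).lowerCentralSeries c =
      ((⊤ : Subgroup (FreeGroup G)).lowerCentralSeries c).map (FreeGroup.lift id) := by
    rw [Subgroup.map_lowerCentralSeries]
    congr 1
    rw [eq_comm, ← MonoidHom.range_eq_map, MonoidHom.range_eq_top]
    intro g
    exact ⟨FreeGroup.of g, by simp⟩
  rw [h1] at hx
  obtain ⟨z, hz, rfl⟩ := hx
  exact verb_map _ (key z hz)

end nil

section rel

open Pool.Agent.Y75.BF.Gr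

variable {X I : Type u} {T : I → Type u} [∀ i, Group (T i)] (N : Subgroup (FP X I T)) [N.Normal]

/-- the action on the free group on the edges -/
noncomputable def actF : QN N →* MulAut (FreeGroup (Ed N)) where
  toFun g := FreeGroup.freeGroupCongr (MulAction.toPerm g)
  map_one' := by
    ext x
    induction x using FreeGroup.induction_on with
    | C1 => rw [map_one, map_one]
    | of e =>
      change FreeGroup.map _ (FreeGroup.of e) = FreeGroup.of e
      rw [FreeGroup.map.of]
      change FreeGroup.of ((1 : QN N) • e) = _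
      rw [one_smul]
    | inv_of e h => rw [map_inv, map_inv, h]
    | mul x y hx hy => rw [map_mul, map_mul, hx, hy]
  map_mul' g h := by
    ext x
    induction x using FreeGroup.induction_on with
    | C1 => rw [map_one, map_one]
    | of e =>
      change FreeGroup.map _ (FreeGroup.of e) =
        FreeGroup.map _ (FreeGroup.map _ (FreeGroup.of e))
      rw [FreeGroup.map.of, FreeGroup.map.of, FreeGroup.map.of]
      change FreeGroup.of ((g * h) • e) = FreeGroup.of (g • h • e)
      rw [mul_smul]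
    | inv_of e h => rw [map_inv, map_inv, h]
    | mul x y hx hy => rw [map_mul, map_mul, hx, hy]

theorem actF_of (g : QN N) (e : Ed N) :
    actF N g (FreeGroup.of e) = FreeGroup.of (g • e) := by
  change FreeGroup.map _ (FreeGroup.of e) = _
  rw [FreeGroup.map.of]
  rfl

theorem actF_eq (g : QN N) (x : FreeGroup (Ed N)) :
    actF N g x = FreeGroup.map (MulAction.toPerm g : Equiv.Perm (Ed N)) x := rfl

/-- the group-level Magnus homomorphism -/
noncomputable def th : FP X I T →* SemidirectProduct (FreeGroup (Ed N)) (QN N) (actF N) :=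
  liftP
    (FreeGroup.lift fun x => ⟨FreeGroup.of ⟨1, Sum.inl x⟩, q N (ofX x)⟩)
    (Monoid.CoprodI.lift fun i =>
      { toFun := fun t => ⟨FreeGroup.of ⟨1, Sum.inr i⟩ *
            (FreeGroup.of ⟨q N (ofT i t), Sum.inr i⟩)⁻¹, q N (ofT i t)⟩
        map_one' := by
          rw [map_one, q_one, mul_inv_cancel]; rfl
        map_mul' := by
          intro a b
          apply SemidirectProduct.ext
          · rw [SemidirectProduct.mul_left]
            change FreeGroup.of (⟨1, Sum.inr i⟩ : Ed N) *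
                (FreeGroup.of (⟨q N (ofT i (a * b)), Sum.inr i⟩ : Ed N))⁻¹ =
              FreeGroup.of (⟨1, Sum.inr i⟩ : Ed N) *
                (FreeGroup.of (⟨q N (ofT i a), Sum.inr i⟩ : Ed N))⁻¹ *
              actF N (q N (ofT i a)) (FreeGroup.of (⟨1, Sum.inr i⟩ : Ed N) *
                (FreeGroup.of (⟨q N (ofT i b), Sum.inr i⟩ : Ed N))⁻¹)
            rw [map_mul (actF N (q N (ofT i a))), map_inv (actF N (q N (ofT i a))), actF_of,
              actF_of, ed_smul, ed_smul, mul_one, map_mul, q_mul]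
            group
          · rw [SemidirectProduct.mul_right]
            change q N (ofT i (a * b)) = q N (ofT i a) * q N (ofT i b)
            rw [map_mul, q_mul] })

theorem th_ofX (x : X) : th N (ofX x) = ⟨FreeGroup.of ⟨1, Sum.inl x⟩, q N (ofX x)⟩ := by
  unfold th
  rw [ofX, liftP_inF, FreeGroup.lift_apply_of]
  rfl

theorem th_ofT (i : I) (t : T i) : th N (ofT i t) =
    ⟨FreeGroup.of ⟨1, Sum.inr i⟩ * (FreeGroup.of ⟨q N (ofT i t), Sum.inr i⟩)⁻¹,
      q N (ofT i t)⟩ := by
  unfold th
  conv_lhs => rw [ofT, MonoidHom.comp_apply, liftP_inC, Monoid.CoprodI.lift_of]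
  rfl

theorem th_right (w : FP X I T) : (th N w).right = q N w := by
  induction w using fp_ind with
  | h1 => rw [map_one]; rfl
  | hx x => rw [th_ofX]
  | hxi x => rw [map_inv, SemidirectProduct.inv_right, th_ofX]; rfl
  | ht i t => rw [th_ofT]
  | hm a b ha hb => rw [map_mul, SemidirectProduct.mul_right, q_mul, ← ha, ← hb]

/-- the exponent sums -/
noncomputable def exs : FreeGroup (Ed N) →* Multiplicative (Ed N →₀ ℤ) :=
  FreeGroup.lift fun e => Multiplicative.ofAdd (Finsupp.single e 1)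

omit [N.Normal] in
theorem exs_of (e : Ed N) :
    exs N (FreeGroup.of e) = Multiplicative.ofAdd (Finsupp.single e 1) := by
  unfold exs
  rw [FreeGroup.lift_apply_of]

theorem exs_act (g : QN N) (x : FreeGroup (Ed N)) :
    (exs N (actF N g x)).toAdd = ac g (exs N x).toAdd := by
  induction x using FreeGroup.induction_on with
  | C1 => rw [map_one, map_one, toAdd_one, map_zero]
  | of e => rw [actF_of, exs_of, exs_of, toAdd_ofAdd, toAdd_ofAdd, ac_single]
  | inv_of e h => rw [map_inv, map_inv, toAdd_inv, h, map_inv, toAdd_inv, map_neg]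
  | mul x y hx hy => rw [map_mul, map_mul, toAdd_mul, hx, hy, map_mul, toAdd_mul, map_add]

theorem exs_th (w : FP X I T) : (exs N (th N w).left).toAdd = cP N w := by
  induction w using fp_ind with
  | h1 => rw [map_one, cP_one]; rfl
  | hx x => rw [th_ofX, exs_of, cP_ofX, toAdd_ofAdd]
  | hxi x =>
    rw [map_inv, SemidirectProduct.inv_left, exs_act, map_inv, toAdd_inv, th_ofX, exs_of, cP_inv,
      cP_ofX, toAdd_ofAdd, map_neg]
  | ht i t =>
    rw [th_ofT, map_mul, map_inv, exs_of, exs_of, cP_ofT, toAdd_mul, toAdd_inv, toAdd_ofAdd,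
      toAdd_ofAdd, sub_eq_add_neg]
  | hm a b ha hb =>
    rw [map_mul, SemidirectProduct.mul_left, map_mul, toAdd_mul, exs_act, ha, hb, th_right, cP_mul]

/-- the map on `N` -/
noncomputable def io : N →* FreeGroup (Ed N) where
  toFun r := (th N r).left
  map_one' := by rw [OneMemClass.coe_one, map_one]; rfl
  map_mul' r s := by
    have hr : q N (r : FP X I T) = 1 := (QuotientGroup.eq_one_iff _).2 r.2
    rw [Subgroup.coe_mul, map_mul, SemidirectProduct.mul_left, th_right, hr, map_one]
    rfl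

theorem io_conj (y : FP X I T) (r : N) (h : y * r * y⁻¹ ∈ N) :
    io N ⟨_, h⟩ = (th N y).left * actF N (q N y) (io N r) * (th N y).left⁻¹ := by
  have hr : q N (r : FP X I T) = 1 := (QuotientGroup.eq_one_iff _).2 r.2
  change (th N (y * r * y⁻¹)).left = (th N y).left * actF N (q N y) (th N r).left * (th N y).left⁻¹
  rw [map_mul, map_mul, map_inv, SemidirectProduct.mul_left, SemidirectProduct.mul_left,
    SemidirectProduct.inv_left, SemidirectProduct.mul_right, th_right, th_right, hr, mul_one,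
    ← MulAut.mul_apply, ← map_mul, mul_inv_cancel, map_one]
  rfl

theorem exists_lift (e : Ed N) : ∃ r : N, k N (r : FP X I T) = eval0 N e := by
  obtain ⟨w, hw⟩ := QuotientGroup.mk_surjective (eval0 N e)
  have h1 := eval0_mem N e
  rw [← hw, MonoidHom.mem_ker, gG_mk] at h1
  exact ⟨⟨w, (QuotientGroup.eq_one_iff _).1 h1⟩, hw⟩

/-- the retraction -/
noncomputable def rho : FreeGroup (Ed N) →* N := FreeGroup.lift fun e => (exists_lift N e).choose

theorem rho_of (e : Ed N) : k N (rho N (FreeGroup.of e) : FP X I T) = eval0 N e := by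
  unfold rho
  rw [FreeGroup.lift_apply_of]
  exact (exists_lift N e).choose_spec

theorem k_mul (a b : FP X I T) : k N (a * b) = k N a * k N b := rfl

theorem k_rho (x : FreeGroup (Ed N)) :
    k N (rho N x : FP X I T) = lamG N (exs N x).toAdd := by
  induction x using FreeGroup.induction_on with
  | C1 => rw [map_one, map_one, toAdd_one, lamG_zero]; rfl
  | of e => rw [rho_of, exs_of, toAdd_ofAdd, lamG_single]
  | inv_of e h =>
    rw [map_inv, map_inv, toAdd_inv, lamG_neg, ← h]
    rfl
  | mul x y hx hy => rw [map_mul, map_mul, toAdd_mul, lamG_add, ← hx, ← hy]; rfl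

theorem rho_io (hN : ∀ i (t : T i), ofT i t ∈ N → t = 1) (r : N) :
    rho N (io N r) * r⁻¹ ∈ commutator N := by
  have hr : q N (r : FP X I T) = 1 := (QuotientGroup.eq_one_iff _).2 r.2
  have h1 : k N (rho N (io N r) : FP X I T) = k N (r : FP X I T) := by
    rw [k_rho]
    change lamG N (exs N (th N (r : FP X I T)).left).toAdd = _
    rw [exs_th]
    have h2 := word_eq N hN (r : FP X I T) 1
    rw [ac_one, hr, mul_one] at h2
    rw [h2]
    have h3 : sec N 1 ∈ (gG N).ker := by rw [MonoidHom.mem_ker, gG_sec]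
    have h4 : k N (r : FP X I T) ∈ (gG N).ker := by rw [MonoidHom.mem_ker, gG_k, hr]
    have h5 := congrArg Subtype.val (ker_comm N ⟨_, h3⟩ ⟨_, h4⟩)
    change sec N 1 * k N (r : FP X I T) = k N (r : FP X I T) * sec N 1 at h5
    rw [h5, mul_inv_cancel_right]
  have h2 : ((rho N (io N r) * r⁻¹ : N) : FP X I T) ∈ ⁅N, N⁆ := by
    rw [← QuotientGroup.eq_one_iff]
    change k N (rho N (io N r) : FP X I T) * (k N (r : FP X I T))⁻¹ = 1
    rw [h1, mul_inv_cancel]
  rw [← Subgroup.map_subtype_commutator] at h2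
  obtain ⟨z, hz, hzr⟩ := h2
  have h3 : z = rho N (io N r) * r⁻¹ := Subtype.ext hzr
  rw [← h3]
  exact hz

variable {W : Set (FreeGroup ℕ)}

/-- Elements of `N / V(N)` of infinite order are not conjugate to proper powers in `P / V(N)`. -/
theorem noPow_ker (hN : ∀ i (t : T i), ofT i t ∈ N → t = 1) {c : ℕ}
    (hc : (⊤ : Subgroup (FreeGroup ℕ)).lowerCentralSeries c ≤ verb W (FreeGroup ℕ))
    (v : N) (hv : ∀ n : ℕ, 0 < n → v ^ n ∉ verb W N) (y : FP X I T) {m : ℕ} (hm : 2 ≤ m)
    (h : ∀ hy : y * v * y⁻¹ ∈ N, (⟨_, hy⟩ : N) * (v ^ m)⁻¹ ∈ verb W N) : False := by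
  classical
  -- the layer
  have hlc : Dl W N c = verb W N := by
    unfold Dl
    rw [sup_eq_right]
    exact lcs_le_verb hc N
  have hex : ∃ i : ℕ, ¬ ∃ n : ℕ, 0 < n ∧ v ^ n ∈ Dl W N i := by
    refine ⟨c, ?_⟩
    rintro ⟨n, hn, h1⟩
    rw [hlc] at h1
    exact hv n hn h1
  obtain ⟨i, ⟨n, hn, h1⟩, h2⟩ : ∃ i : ℕ, (∃ n : ℕ, 0 < n ∧ v ^ n ∈ Dl W N i) ∧
      ¬ ∃ n : ℕ, 0 < n ∧ v ^ n ∈ Dl W N (i + 1) := by
    have h0 : Nat.find hex ≠ 0 := by
      intro h0
      apply Nat.find_spec hex
      rw [h0, Dl_zero]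
      exact ⟨1, one_pos, trivial⟩
    obtain ⟨i, hi⟩ : ∃ i, Nat.find hex = i + 1 := ⟨Nat.find hex - 1, by omega⟩
    refine ⟨i, ?_, ?_⟩
    · by_contra hcon
      have := Nat.find_min' hex hcon
      omega
    · rw [← hi]
      exact Nat.find_spec hex
  set v' : N := v ^ n with hv'
  have hne : ¬ Eqv W i v' 1 := by
    rintro ⟨k, hk, h3⟩
    rw [QuotientGroup.mk_one, one_pow, ← QuotientGroup.mk_pow, QuotientGroup.eq_one_iff] at h3
    exact h2 ⟨n * k, Nat.mul_pos hn hk, by rw [pow_mul]; exact h3⟩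
  apply hne
  have hyv : y * (v : FP X I T) * y⁻¹ ∈ N := Subgroup.Normal.conj_mem inferInstance _ v.2 y
  have hyv' : y * (v' : FP X I T) * y⁻¹ ∈ N := Subgroup.Normal.conj_mem inferInstance _ v'.2 y
  have h3 : (⟨_, hyv'⟩ : N) * (v' ^ m)⁻¹ ∈ Dl W N (i + 1) := by
    have h4 := h hyv
    have h5 : (⟨_, hyv'⟩ : N) = ⟨_, hyv⟩ ^ n := by
      apply Subtype.ext
      change y * ((v : FP X I T) ^ n) * y⁻¹ = (y * (v : FP X I T) * y⁻¹) ^ n
      rw [conj_pow]
    have h6 : (QuotientGroup.mk (⟨_, hyv⟩ : N) : N ⧸ verb W N) = QuotientGroup.mk (v ^ m) := by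
      rw [← mul_inv_eq_one, ← QuotientGroup.mk_inv, ← QuotientGroup.mk_mul,
        QuotientGroup.eq_one_iff]
      exact h4
    apply verb_le
    rw [← QuotientGroup.eq_one_iff, QuotientGroup.mk_mul, QuotientGroup.mk_inv, h5,
      QuotientGroup.mk_pow, h6, hv', ← QuotientGroup.mk_pow, ← pow_mul, ← pow_mul, mul_comm,
      mul_inv_cancel]
  have h4 : Eqv W i (io N v') 1 := by
    apply no_layer i (MulAction.toPerm (q N y) : Equiv.Perm (Ed N)) (io N v') hm
    refine ⟨1, one_pos, ?_⟩
    rw [pow_one, pow_one]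
    have h5 := Dl_map (io N) (i + 1) h3
    rw [map_mul, map_inv, map_pow, io_conj] at h5
    have h6 : (QuotientGroup.mk ((th N y).left * actF N (q N y) (io N v') * (th N y).left⁻¹) :
        FreeGroup (Ed N) ⧸ Dl W (FreeGroup (Ed N)) (i + 1)) = QuotientGroup.mk (io N v' ^ m) := by
      rw [← mul_inv_eq_one, ← QuotientGroup.mk_inv, ← QuotientGroup.mk_mul,
        QuotientGroup.eq_one_iff]
      exact h5
    have h7 : actF N (q N y) (io N v') ∈ Dl W (FreeGroup (Ed N)) i :=
      Dl_map (actF N (q N y)).toMonoidHom i (Dl_map (io N) i h1)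
    rw [← h6, QuotientGroup.mk_mul, ← central h7, ← QuotientGroup.mk_mul, mul_inv_cancel_right]
    rfl
  have h5 := h4.map (rho N)
  rw [map_one] at h5
  have h6 := layer_id (W := W) ((rho N).comp (io N)) (rho_io N hN) i h1
  have h7 : (QuotientGroup.mk (rho N (io N v')) : N ⧸ Dl W N (i + 1)) = QuotientGroup.mk v' := by
    rw [← mul_inv_eq_one, ← QuotientGroup.mk_inv, ← QuotientGroup.mk_mul,
      QuotientGroup.eq_one_iff]
    exact h6
  obtain ⟨k, hk, h8⟩ := h5
  exact ⟨k, hk, by rw [← h7]; exact h8⟩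

end rel

end Pool.Agent.H92.Rc
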