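import Pool.Agent.H92.Rc.Rel
import Pool.Agent.Y75.BF.Thm
import Pool.Agent.H92.Rc.Defs

set_option autoImplicit false

/-!
The groups `P / V(N)` and the Bass trace conjecture.
-/

namespace Pool.Agent.H92.Rc

open Subgroup
open scoped commutatorElement
open Pool.Agent.Y75.BF.Gr
open Pool.Agent.Y75.BF (InfOrd NoPow good_of_noPower)
open MonoidAlgebra
open Pool.Agent.H23R2.Cyc (tf)
open Pool.Agent.H26R2.Bass

universe u v w

variable {X I : Type u} {T : I → Type u} [∀ i, Group (T i)] (N : Subgroup (FP X I T)) [N.Normal]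

variable {W : Set (FreeGroup ℕ)}

theorem vs_eq {G : Type v} [Group G] (N : Subgroup G) : vs W N = (verb W N).map N.subtype := by
  unfold vs verb
  rw [MonoidHom.map_closure]
  congr 1
  ext x
  constructor
  · rintro ⟨w, hw, f, rfl⟩
    exact ⟨_, ⟨w, hw, f, rfl⟩, rfl⟩
  · rintro ⟨_, ⟨w, hw, f, rfl⟩, rfl⟩
    exact ⟨w, hw, f, rfl⟩

theorem noPow_verb (hW : ∀ w ∈ W, w ∈ commutator (FreeGroup ℕ)) {c : ℕ}
    (hc : (⊤ : Subgroup (FreeGroup ℕ)).lowerCentralSeries c ≤ verb W (FreeGroup ℕ))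
    (hN : ∀ i (t : T i), ofT i t ∈ N → t = 1)
    (hT : ∀ i (t : T i), (∃ n : ℕ, 0 < n ∧ t ^ n = 1) ∨
      ∀ m : ℕ, 2 ≤ m → ¬ IsConj (QuotientGroup.mk (ofT i t) : FP X I T ⧸ N)
        (QuotientGroup.mk (ofT i t) ^ m))
    (g : FP X I T ⧸ vs W N) (hg : InfOrd g) : NoPow g := by
  intro m hm hconj
  obtain ⟨y, hy⟩ := isConj_iff.1 hconj
  obtain ⟨x, rfl⟩ := QuotientGroup.mk_surjective g
  obtain ⟨y, rfl⟩ := QuotientGroup.mk_surjective y
  have hle : vs W N ≤ ⁅N, N⁆ := by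
    rw [vs_eq, ← Subgroup.map_subtype_commutator]
    exact Subgroup.map_mono (verb_le_comm hW N)
  have h1 : ⁅N, N⁆ ≤ N := Subgroup.commutator_le_left N N
  -- the image in `P / [N, N]`
  have hy0 : y * x * y⁻¹ * (x ^ m)⁻¹ ∈ vs W N := by
    rw [← QuotientGroup.eq_one_iff, QuotientGroup.mk_mul, QuotientGroup.mk_inv, mul_inv_eq_one]
    exact hy
  have h2 : IsConj (QuotientGroup.mk x : GN N) (QuotientGroup.mk x ^ m) := by
    refine isConj_iff.2 ⟨QuotientGroup.mk y, ?_⟩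
    rw [← mul_inv_eq_one]
    exact (QuotientGroup.eq_one_iff _).2 (hle hy0)
  obtain ⟨n, hn, h3⟩ := finite_of_conj_pow N hN hT _ m hm h2
  rw [← QuotientGroup.mk_pow, QuotientGroup.eq_one_iff] at h3
  have hx : x ^ n ∈ N := h1 h3
  refine noPow_ker (W := W) N hN hc ⟨x ^ n, hx⟩ ?_ y hm ?_
  · intro k hk h4
    apply hg (n * k) (Nat.mul_pos hn hk)
    rw [← QuotientGroup.mk_pow, QuotientGroup.eq_one_iff, vs_eq]
    exact ⟨_, h4, by
      change (x ^ n) ^ k = x ^ (n * k)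
      rw [pow_mul]⟩
  · intro hyN
    have h5 : y * x ^ n * y⁻¹ * ((x ^ n) ^ m)⁻¹ ∈ vs W N := by
      rw [← QuotientGroup.eq_one_iff, QuotientGroup.mk_mul, QuotientGroup.mk_inv, mul_inv_eq_one]
      have h6 : (QuotientGroup.mk (y * x * y⁻¹) : FP X I T ⧸ vs W N) = QuotientGroup.mk (x ^ m) := hy
      have h7 : y * x ^ n * y⁻¹ = (y * x * y⁻¹) ^ n := conj_pow.symm
      rw [h7, QuotientGroup.mk_pow, h6, ← QuotientGroup.mk_pow, ← pow_mul, ← pow_mul, mul_comm]
    rw [vs_eq] at h5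
    obtain ⟨z, hz, hzx⟩ := h5
    have h6 : z = (⟨_, hyN⟩ : N) * (⟨x ^ n, hx⟩ ^ m)⁻¹ := Subtype.ext hzx
    rw [← h6]
    exact hz

/-- detection by groups without elements of infinite order that are conjugate to proper powers -/
theorem bass_detect (R : Type u) [CommRing R] [IsDomain R] (H : Type w) [Group H]
    (hH : ∀ h : H, InfOrd h → ∀ (H0 : Subgroup H) (_ : H0.FG) (hh : h ∈ H0),
      ∃ (L : Type v) (_ : Group L) (s : H0 →* L), (∀ x : L, InfOrd x → NoPow x) ∧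
        InfOrd (s ⟨h, hh⟩)) : BassFor R H := by
  intro n A hA g hg
  have hA' : A * A = A := hA
  change tau A g = 0
  rw [tau_eq]
  by_cases hfin : orderOf g = 0
  swap
  · exact tf_zero_of_finite A hA' g hfin hg
  by_contra hne
  obtain ⟨H0, hH0, B, hB, h, hconj, hne'⟩ := exists_local A hA' g hne
  apply hne'
  obtain ⟨c, hc⟩ := isConj_iff.1 hconj
  have hinf : InfOrd (h : H) := by
    intro k hk h1
    apply orderOf_eq_zero_iff'.1 hfin k hk
    rw [← hc, conj_pow, h1, mul_one, mul_inv_cancel]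
  obtain ⟨L, _, s, h1, h2⟩ := hH h hinf H0 hH0 h.2
  apply tf_zero_of_good B hB h
  apply good_of_hom s h
  exact good_of_noPower _ (h1 _ h2)

end Pool.Agent.H92.Rc
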