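import Mathlib

set_option autoImplicit false

/-!
Verbal subgroups and their layers.
-/

namespace Pool.Agent.H92.Rc

open Subgroup
open scoped commutatorElement

universe u v w

variable (W : Set (FreeGroup ℕ))

/-- the verbal subgroup -/
def verb (G : Type v) [Group G] : Subgroup G :=
  Subgroup.closure {x | ∃ w ∈ W, ∃ f : ℕ → G, FreeGroup.lift f w = x}

variable {W}

theorem verb_map {G : Type v} {H : Type w} [Group G] [Group H] (φ : G →* H) {x : G}
    (hx : x ∈ verb W G) : φ x ∈ verb W H := by
  induction hx using Subgroup.closure_induction with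
  | mem x hx =>
    obtain ⟨w, hw, f, rfl⟩ := hx
    refine Subgroup.subset_closure ⟨w, hw, φ ∘ f, ?_⟩
    have h1 : FreeGroup.lift (φ ∘ f) = φ.comp (FreeGroup.lift f) := by
      ext a
      simp
    rw [h1]
    rfl
  | one => rw [map_one]; exact one_mem _
  | mul x y _ _ hx hy => rw [map_mul]; exact mul_mem hx hy
  | inv x _ hx => rw [map_inv]; exact inv_mem hx

instance verb_char (G : Type v) [Group G] : (verb W G).Characteristic := by
  rw [Subgroup.characteristic_iff_map_le]
  rintro φ _ ⟨x, hx, rfl⟩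
  exact verb_map φ.toMonoidHom hx

theorem lcs_map {G : Type v} {H : Type w} [Group G] [Group H] (φ : G →* H) (i : ℕ) {x : G}
    (hx : x ∈ (⊤ : Subgroup G).lowerCentralSeries i) :
    φ x ∈ (⊤ : Subgroup H).lowerCentralSeries i := by
  induction i generalizing x with
  | zero => trivial
  | succ i ih =>
    rw [Subgroup.mem_lowerCentralSeries_succ_iff] at hx
    induction hx using Subgroup.closure_induction with
    | mem x hx =>
      obtain ⟨a, ha, b, _, rfl⟩ := hx
      rw [map_commutatorElement]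
      exact commutator_mem_commutator (ih ha) trivial
    | one => rw [map_one]; exact one_mem _
    | mul x y _ _ hx hy => rw [map_mul]; exact mul_mem hx hy
    | inv x _ hx => rw [map_inv]; exact inv_mem hx

variable (W) in
/-- the filtration -/
def Dl (G : Type v) [Group G] (i : ℕ) : Subgroup G :=
  (⊤ : Subgroup G).lowerCentralSeries i ⊔ verb W G

instance Dl_normal (G : Type v) [Group G] (i : ℕ) : (Dl W G i).Normal := by
  unfold Dl
  infer_instance

theorem Dl_zero (G : Type v) [Group G] : Dl W G 0 = ⊤ := by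
  unfold Dl
  rw [Subgroup.lowerCentralSeries_zero, top_sup_eq]

theorem Dl_map {G : Type v} {H : Type w} [Group G] [Group H] (φ : G →* H) (i : ℕ) {x : G}
    (hx : x ∈ Dl W G i) : φ x ∈ Dl W H i := by
  obtain ⟨a, ha, b, hb, rfl⟩ := mem_sup_of_normal_left.1 hx
  rw [map_mul]
  exact mul_mem_sup (lcs_map φ i ha) (verb_map φ hb)

theorem Dl_anti (G : Type v) [Group G] : Antitone (Dl W G) := fun _ _ h =>
  sup_le_sup_right ((⊤ : Subgroup G).lowerCentralSeries_antitone h) _

theorem verb_le (G : Type v) [Group G] (i : ℕ) : verb W G ≤ Dl W G i := le_sup_right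

/-- commutators go down -/
theorem comm_mem {G : Type v} [Group G] {i : ℕ} {x : G} (hx : x ∈ Dl W G i) (y : G) :
    ⁅x, y⁆ ∈ Dl W G (i + 1) := by
  obtain ⟨a, ha, b, hb, rfl⟩ := mem_sup_of_normal_left.1 hx
  have e : ⁅a * b, y⁆ = (a * ⁅b, y⁆ * a⁻¹) * ⁅a, y⁆ := by
    simp only [commutatorElement_def]; group
  rw [e]
  refine mul_mem ?_ ?_
  · refine (Dl_normal G (i + 1)).conj_mem _ ?_ a
    apply verb_le
    have e2 : ⁅b, y⁆ = b * (y * b⁻¹ * y⁻¹) := by rw [commutatorElement_def]; group
    rw [e2]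
    exact mul_mem hb ((inferInstance : (verb W G).Normal).conj_mem _ (inv_mem hb) y)
  · exact mem_sup_left (commutator_mem_commutator ha trivial)

/-- elements of a layer are central modulo the next one -/
theorem central {G : Type v} [Group G] {i : ℕ} {x : G} (hx : x ∈ Dl W G i) (y : G) :
    (QuotientGroup.mk (x * y) : G ⧸ Dl W G (i + 1)) = QuotientGroup.mk (y * x) := by
  have h1 := comm_mem (inv_mem hx) y⁻¹
  rw [QuotientGroup.eq]
  have e : (x * y)⁻¹ * (y * x) = y⁻¹ * (x⁻¹ * y * x * y⁻¹) * y := by group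
  have h2 : x⁻¹ * y * x * y⁻¹ ∈ Dl W G (i + 1) := by
    have h3 := comm_mem (inv_mem hx) y
    rw [commutatorElement_def, inv_inv] at h3
    exact h3
  rw [e]
  have h4 := (Dl_normal G (i + 1)).conj_mem _ h2 y⁻¹
  rwa [inv_inv] at h4

/-- words in the commutator subgroup -/
theorem verb_le_comm (hW : ∀ w ∈ W, w ∈ commutator (FreeGroup ℕ)) (G : Type v) [Group G] :
    verb W G ≤ commutator G := by
  unfold verb
  rw [Subgroup.closure_le]
  rintro _ ⟨w, hw, f, rfl⟩
  have h1 := hW w hw
  have h2 : (FreeGroup.lift f) w ∈ (commutator (FreeGroup ℕ)).map (FreeGroup.lift f) := ⟨w, h1, rfl⟩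
  rw [_root_.map_commutator_eq] at h2
  exact (Subgroup.commutator_mono le_top le_top) h2

/-- commutators with elements of the commutator subgroup go down twice -/
theorem comm_comm {G : Type v} [Group G] {i : ℕ} {x : G} (hx : x ∈ Dl W G i) {e : G}
    (he : e ∈ commutator G) : ⁅x, e⁆ ∈ Dl W G (i + 2) := by
  have hcen : ∀ y z : G, (QuotientGroup.mk (⁅x, y⁆ * z) : G ⧸ Dl W G (i + 2)) =
      QuotientGroup.mk (z * ⁅x, y⁆) := fun y z => central (comm_mem hx y) z
  have hmul : ∀ y z : G, (QuotientGroup.mk ⁅x, y * z⁆ : G ⧸ Dl W G (i + 2)) =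
      QuotientGroup.mk ⁅x, y⁆ * QuotientGroup.mk ⁅x, z⁆ := by
    intro y z
    have e : ⁅x, y * z⁆ = ⁅x, y⁆ * (y * ⁅x, z⁆ * y⁻¹) := by
      simp only [commutatorElement_def]; group
    rw [e, QuotientGroup.mk_mul]
    congr 1
    have h1 := hcen z y
    rw [QuotientGroup.mk_mul, QuotientGroup.mk_mul, QuotientGroup.mk_inv]
    rw [QuotientGroup.mk_mul, QuotientGroup.mk_mul] at h1
    rw [← h1, mul_inv_cancel_right]
  let c : G →* G ⧸ Dl W G (i + 2) :=
    { toFun := fun y => QuotientGroup.mk ⁅x, y⁆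
      map_one' := by rw [commutatorElement_one_right]; rfl
      map_mul' := hmul }
  have hc : ∀ y z : G, c y * c z = c z * c y := by
    intro y z
    have h1 := hcen y ⁅x, z⁆
    rw [QuotientGroup.mk_mul, QuotientGroup.mk_mul] at h1
    exact h1
  have h2 : commutator G ≤ c.ker := by
    rw [commutator_def, Subgroup.commutator_le]
    intro y _ z _
    rw [MonoidHom.mem_ker, map_commutatorElement, commutatorElement_eq_one_iff_mul_comm]
    exact hc y z
  exact (QuotientGroup.eq_one_iff _).1 (h2 he)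

/-- endomorphisms that are trivial modulo commutators are trivial on the layers -/
theorem layer_id {G : Type v} [Group G] (φ : G →* G)
    (hφ : ∀ g : G, φ g * g⁻¹ ∈ commutator G) (i : ℕ) {x : G} (hx : x ∈ Dl W G i) :
    φ x * x⁻¹ ∈ Dl W G (i + 1) := by
  have hcomm : commutator G ≤ Dl W G 1 := by
    rw [← top_lowerCentralSeries_one]
    exact le_sup_left
  induction i generalizing x with
  | zero => exact hcomm (hφ x)
  | succ i ih =>
    let K : Subgroup G := MonoidHom.eqLocus ((QuotientGroup.mk' (Dl W G (i + 2))).comp φ)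
      (QuotientGroup.mk' (Dl W G (i + 2)))
    have hK : ∀ y, y ∈ K ↔ φ y * y⁻¹ ∈ Dl W G (i + 2) := by
      intro y
      change (QuotientGroup.mk (φ y) : G ⧸ Dl W G (i + 2)) = QuotientGroup.mk y ↔ _
      rw [← QuotientGroup.eq_one_iff, QuotientGroup.mk_mul, QuotientGroup.mk_inv, mul_inv_eq_one]
    have h1 : Dl W G (i + 1) ≤ K := by
      refine sup_le ?_ ?_
      · rw [Subgroup.lowerCentralSeries_succ, Subgroup.commutator_le]
        intro a ha b _
        have ha' : a ∈ Dl W G i := mem_sup_left ha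
        have hd := ih ha'
        have he := hφ b
        change (QuotientGroup.mk (φ ⁅a, b⁆) : G ⧸ Dl W G (i + 2)) = QuotientGroup.mk ⁅a, b⁆
        set d := φ a * a⁻¹ with hd'
        set e := φ b * b⁻¹ with he'
        have e1 : φ a = d * a := by rw [hd', inv_mul_cancel_right]
        have e2 : φ b = e * b := by rw [he', inv_mul_cancel_right]
        rw [map_commutatorElement, e1, e2]
        have e3 : ⁅d * a, e * b⁆ = (d * ⁅a, e * b⁆ * d⁻¹) * ⁅d, e * b⁆ := by
          simp only [commutatorElement_def]; group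
        have e4 : ⁅a, e * b⁆ = ⁅a, e⁆ * (e * ⁅a, b⁆ * e⁻¹) := by
          simp only [commutatorElement_def]; group
        have h2 : (QuotientGroup.mk ⁅d, e * b⁆ : G ⧸ Dl W G (i + 2)) = 1 :=
          (QuotientGroup.eq_one_iff _).2 (comm_mem hd _)
        have h3 : (QuotientGroup.mk ⁅a, e⁆ : G ⧸ Dl W G (i + 2)) = 1 :=
          (QuotientGroup.eq_one_iff _).2 (comm_comm ha' he)
        have h4 : ∀ (z y : G), z ∈ Dl W G (i + 1) →
            (QuotientGroup.mk (y * z * y⁻¹) : G ⧸ Dl W G (i + 2)) = QuotientGroup.mk z := by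
          intro z y hz
          have h5 := central hz y
          rw [QuotientGroup.mk_mul, QuotientGroup.mk_mul] at h5
          rw [QuotientGroup.mk_mul, QuotientGroup.mk_mul, QuotientGroup.mk_inv, ← h5,
            mul_inv_cancel_right]
        rw [e3, QuotientGroup.mk_mul, h2, mul_one, h4 _ _ (comm_mem ha' _), e4,
          QuotientGroup.mk_mul, h3, one_mul, h4 _ _ (comm_mem ha' _)]
      · intro y hy
        rw [hK]
        exact verb_le _ _ (mul_mem (verb_map φ hy) (inv_mem hy))
    exact (hK x).1 (h1 hx)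

end Pool.Agent.H92.Rc
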